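import Pool.Agent.MP_3ce0a0_al.H79.XS

/-
The trace inequality for two commuting elements of order three that are swapped by an involution.
-/

namespace Pool.Agent.MP_3ce0a0_al.H55

open Module LinearMap Pool.Agent.MP_3ce0a0_al.H79.X

/-- replacing the idempotents `p, p'` by nearby idempotents `q, q'`. -/
lemma core {R : Type} [CommRing R] (t u : R →+ ℝ) (T : R → R → Prop) (p p' q q' : R)
    (hp : p * p = p) (hp' : p' * p' = p') (hq : q * q = q) (hq' : q' * q' = q')
    (pos : ∀ x, x * x = x → 0 ≤ t x) (sym : ∀ x, x * x = x → T x x → |u x| ≤ t x)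
    (T1 : T 1 1) (Tm : ∀ {x y x' y'}, T x y → T x' y' → T (x * x') (y * y'))
    (Ts : ∀ {x y x' y'}, T x y → T x' y' → T (x - x') (y - y'))
    (Tr : ∀ {x y}, T x y → T y x) (Tt : ∀ {x y}, T x y → t x = t y)
    (Tp : T p p') (Tq : T q q') :
    t (p * p') - u (p * p') - t (p * (1 - p')) + t ((1 - p) * (1 - p')) / 4 +
      u ((1 - p) * (1 - p')) / 2 ≤
    t (q * q') - u (q * q') - t (q * (1 - q')) + t ((1 - q) * (1 - q')) / 4 +
      u ((1 - q) * (1 - q')) / 2 + 16 * (t (p * (1 - q)) + t (q * (1 - p))) := by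
  obtain ⟨b, hb⟩ : ∃ b, b = (p - q) * (p - q) := ⟨_, rfl⟩
  obtain ⟨b', hb'⟩ : ∃ b', b' = (p' - q') * (p' - q') := ⟨_, rfl⟩
  have Tb : T b b' := by rw [hb, hb']; exact Tm (Ts Tp Tq) (Ts Tp Tq)
  have e1 : b = p * (1 - q) + q * (1 - p) := by rw [hb]; linear_combination hp + hq
  have e1' : b' = p' * (1 - q') + q' * (1 - p') := by rw [hb']; linear_combination hp' + hq'
  have z : (p - q) * (1 - b) = 0 := by
    rw [e1]; linear_combination (2 * q - 1) * hp + (1 - 2 * p) * hq
  have z' : (p' - q') * (1 - b') = 0 := by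
    rw [e1']; linear_combination (2 * q' - 1) * hp' + (1 - 2 * p') * hq'
  have bb : b * b = b := by linear_combination (-(p - q)) * z + (b - 1) * hb
  have bb' : b' * b' = b' := by linear_combination (-(p' - q')) * z' + (b' - 1) * hb'
  obtain ⟨g, hg⟩ : ∃ g, g = 1 - (1 - b) * (1 - b') := ⟨_, rfl⟩
  have im : ∀ x y : R, x * x = x → y * y = y → x * y * (x * y) = x * y := fun x y hx hy => by
    linear_combination y * y * hx + x * hy
  have io : ∀ x : R, x * x = x → (1 - x) * (1 - x) = 1 - x := fun x hx => by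
    linear_combination hx
  have gg : g * g = g := by rw [hg]; exact io _ (im _ _ (io _ bb) (io _ bb'))
  have Tsw : ∀ {x y}, T x y → T (x * y) (x * y) := fun {x y} h => by
    have := Tm h (Tr h); rwa [mul_comm y x] at this
  have Tg : T g g := by rw [hg]; exact Ts T1 (Tsw (Ts T1 Tb))
  have zg : (p - q) * (1 - g) = 0 := by rw [hg]; linear_combination (1 - b') * z
  have zg' : (p' - q') * (1 - g) = 0 := by rw [hg]; linear_combination (1 - b) * z'
  have tg : t g ≤ 2 * (t (p * (1 - q)) + t (q * (1 - p))) := by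
    have h1 : g = b + b' - b * b' := by rw [hg]; ring
    have h2 := pos _ (im _ _ bb bb')
    have h3 := Tt Tb
    have h4 : t b = t (p * (1 - q)) + t (q * (1 - p)) := by rw [e1, map_add]
    rw [h1, map_sub, map_add]; linarith
  have bd : ∀ x, x * x = x → 0 ≤ t (x * g) ∧ t (x * g) ≤ t g := fun x hx => by
    refine ⟨pos _ (im _ _ hx gg), ?_⟩
    have := pos _ (im _ _ (io _ hx) gg)
    rw [sub_mul, one_mul, map_sub] at this; linarith
  have df : ∀ (f : R →+ ℝ) x y, (x - y) * (1 - g) = 0 → f x - f y = f (x * g) - f (y * g) :=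
    fun f x y h => by
      rw [← map_sub, ← map_sub]; exact congrArg f (by linear_combination h)
  have d1 : (p * p' - q * q') * (1 - g) = 0 := by linear_combination p' * zg + q * zg'
  have d2 : (p * (1 - p') - q * (1 - q')) * (1 - g) = 0 := by
    linear_combination (1 - p') * zg - q * zg'
  have d3 : ((1 - p) * (1 - p') - (1 - q) * (1 - q')) * (1 - g) = 0 := by
    linear_combination (-(1 - p')) * zg - (1 - q) * zg'
  have i1 := im _ _ hp hp'
  have j1 := im _ _ hq hq'
  have i2 := im _ _ hp (io _ hp')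
  have j2 := im _ _ hq (io _ hq')
  have i3 := im _ _ (io _ hp) (io _ hp')
  have j3 := im _ _ (io _ hq) (io _ hq')
  have s1 := abs_le.1 (sym _ (im _ _ i1 gg) (Tm (Tsw Tp) Tg))
  have s2 := abs_le.1 (sym _ (im _ _ j1 gg) (Tm (Tsw Tq) Tg))
  have s3 := abs_le.1 (sym _ (im _ _ i3 gg) (Tm (Tsw (Ts T1 Tp)) Tg))
  have s4 := abs_le.1 (sym _ (im _ _ j3 gg) (Tm (Tsw (Ts T1 Tq)) Tg))
  have := df t _ _ d1
  have := df t _ _ d2
  have := df t _ _ d3
  have := df u _ _ d1
  have := df u _ _ d3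
  have := bd _ i1
  have := bd _ j1
  have := bd _ i2
  have := bd _ j2
  have := bd _ i3
  have := bd _ j3
  have := pos _ gg
  linarith [s1.1, s1.2, s2.1, s2.2, s3.1, s3.2, s4.1, s4.2]

/-- the exact formula for the left side. -/
lemma exact {R : Type} [CommRing R] (t u : R →+ ℂ) (c c' p p' : R)
    (hc : c * p = p) (hc' : c' * p' = p') (hp : p * p = p) (hp' : p' * p' = p')
    (k : (1 + c + c * c) * (1 - p) = 0) (k' : (1 + c' + c' * c') * (1 - p') = 0)
    (h1 : t (c * ((1 - p) * p')) = t (c * c * ((1 - p) * p')))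
    (h2 : t (c' * ((1 - p') * p)) = t (c' * c' * ((1 - p') * p)))
    (h3 : t (c * ((1 - p) * (c' * (1 - p')))) = t (c * c * ((1 - p) * (c' * (1 - p')))))
    (h4 : t (c' * ((1 - p') * (1 - p))) = t (c' * c' * ((1 - p') * (1 - p))))
    (h5 : t ((1 - p) * p') = t ((1 - p') * p))
    (h6 : u (c * c') = u (c' * c' * 1)) (h7 : u (c' * 1) = u (c' * c' * 1))
    (h8 : u (p * (1 - p') * (c' * (p * (1 - p')))) = u (p' * (1 - p) * (c' * (p * (1 - p')))))
    (h9 : u ((1 - p) * p' * (c' * ((1 - p) * p'))) = u ((1 - p') * p * (c' * ((1 - p) * p'))))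
    (h10 : u (c' * ((1 - p') * (1 - p))) = u (c' * c' * ((1 - p') * (1 - p)))) :
    t (c * c') - u (c * c') = t (p * p') - u (p * p') - t (p * (1 - p')) +
      t ((1 - p) * (1 - p')) / 4 + u ((1 - p) * (1 - p')) / 2 := by
  have A : ∀ (f : R →+ ℂ) (c p z : R), (1 + c + c * c) * (1 - p) = 0 →
      f (c * ((1 - p) * z)) = f (c * c * ((1 - p) * z)) →
      f (c * ((1 - p) * z)) = -f ((1 - p) * z) / 2 := fun f c p z k h => by
    have : f ((1 - p) * z) + f (c * ((1 - p) * z)) + f (c * c * ((1 - p) * z)) = 0 := by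
      rw [← map_add, ← map_add, ← map_zero f]; exact congrArg f (by linear_combination z * k)
    linear_combination (1 / 2 : ℂ) * this + (1 / 2 : ℂ) * h
  have a1 := A t c p p' k h1
  have a2 := A t c' p' p k' h2
  have a3 := A t c p _ k h3
  have a4 := A t c' p' _ k' h4
  have a5 := A u c' p' _ k' h10
  have b1 : t (c * c') = t (p * p') + t (c * ((1 - p) * p')) + t (c' * ((1 - p') * p)) +
      t (c * ((1 - p) * (c' * (1 - p')))) := by
    rw [← map_add, ← map_add, ← map_add]
    exact congrArg t (by linear_combination c' * hc + (c - c * p + p) * hc')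
  have b2 : t ((1 - p) * (c' * (1 - p'))) = t (c' * ((1 - p') * (1 - p))) :=
    congrArg t (by ring)
  have b3 : u (c' * 1) = u (p * p') + u (p * (1 - p') * (c' * (p * (1 - p')))) +
      u ((1 - p) * p' * (c' * ((1 - p) * p'))) + u (c' * ((1 - p') * (1 - p))) := by
    rw [← map_add, ← map_add, ← map_add]
    exact congrArg u (by
      linear_combination p * hc' - (c' * (1 - p') ^ 2 + c' * p' ^ 2) * hp - c' * hp')
  have b4 : u (p' * (1 - p) * (c' * (p * (1 - p')))) = 0 := by
    rw [← map_zero u]; exact congrArg u (by linear_combination (-(p' * c' * (1 - p'))) * hp)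
  have b5 : u ((1 - p') * p * (c' * ((1 - p) * p'))) = 0 := by
    rw [← map_zero u]; exact congrArg u (by linear_combination (-(p' * c' * (1 - p'))) * hp)
  rw [mul_comm (1 - p') p] at h5 a2 b1
  rw [mul_comm (1 - p') (1 - p)] at a4 a5 b2 b3
  linear_combination b1 + a1 + a2 + a3 - (1 / 2 : ℂ) * b2 - (1 / 2 : ℂ) * a4 -
    (1 / 2 : ℂ) * h5 - h6 + h7 - b3 - h8 - h9 - b4 - b5 - a5

section
variable {H : Type} [AddCommGroup H] [Module ℂ H] [FiniteDimensional ℂ H]

lemma tr_idem (P : End ℂ H) (hP : P * P = P) : trace ℂ H P = (finrank ℂ (range P) : ℂ) :=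
  (IsIdempotentElem.isProj_range P hP).trace

lemma tr_nonneg (P : End ℂ H) (hP : P * P = P) : 0 ≤ (trace ℂ H P).re := by
  rw [tr_idem P hP]; simp

lemma tr_half (h P : End ℂ H) (hh : h * h = 1) (hP : P * P = P) (hc : h * P = P * h) :
    0 ≤ (trace ℂ H P).re + (trace ℂ H (h * P)).re := by
  have h1 : P * (h * P) = h * P := by rw [← mul_assoc, ← hc, mul_assoc, hP]
  have h2 : h * P * P = h * P := by rw [mul_assoc, hP]
  have h3 : h * P * (h * P) = P := by rw [mul_assoc, h1, ← mul_assoc, hh, one_mul]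
  have := tr_nonneg ((1 / 2 : ℂ) • (P + h * P)) (by
    rw [smul_mul_smul_comm, add_mul, mul_add, mul_add, hP, h1, h2, h3]; module)
  rw [map_smul, map_add, smul_eq_mul] at this
  simp only [one_div, Complex.mul_re, Complex.inv_re, Complex.re_ofNat, Complex.normSq_ofNat,
    Complex.add_re, Complex.inv_im, Complex.im_ofNat, neg_zero, zero_div, zero_mul,
    sub_zero] at this
  linarith

lemma tr_h (h P : End ℂ H) (hh : h * h = 1) (hP : P * P = P) (hc : h * P = P * h) :
    |(trace ℂ H (h * P)).re| ≤ (trace ℂ H P).re := by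
  have h1 := tr_half h P hh hP hc
  have h2 := tr_half (-h) P (by rw [neg_mul_neg, hh]) hP (by rw [neg_mul, mul_neg, hc])
  rw [neg_mul, map_neg, Complex.neg_re] at h2
  exact abs_le.2 ⟨by linarith, by linarith⟩

omit [FiniteDimensional ℂ H] in
lemma tr_conj (s x : End ℂ H) (hs : s * s = 1) : trace ℂ H (s * x * s) = trace ℂ H x := by
  rw [trace_mul_comm, ← mul_assoc, hs, one_mul]

lemma main {R : Type} [CommRing R] (φ : R →+* End ℂ H) (hφ : Function.Injective φ)
    (w c c' e e' : R) (h τ q q' : End ℂ H) (hw : φ w = (1 / 6 : ℂ) • 1) (h3 : φ c ^ 3 = 1)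
    (he : φ e * φ e = 1) (hh : h * h = 1) (hτ : τ * τ = 1) (hc : h * φ c * h = φ c')
    (hee : h * φ e * h = φ e') (tc : τ * φ c * τ = φ c * φ c) (tc' : Commute τ (φ c'))
    (tt : Commute τ (h * τ * h)) (hq : (2 : ℂ) • q = 1 + φ e) (hq' : (2 : ℂ) • q' = 1 + φ e') :
    (trace ℂ H (φ c * φ c') - trace ℂ H (h * (φ c * φ c'))).re ≤
    (trace ℂ H (q * q') - trace ℂ H (h * (q * q')) -
      trace ℂ H (q * (1 - q')) + trace ℂ H ((1 - q) * (1 - q')) / 4 +
      trace ℂ H (h * ((1 - q) * (1 - q'))) / 2).re +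
    16 * (finrank ℂ (End.eigenspace (φ c) 1 ⊓ End.eigenspace (φ e) (-1) : Submodule ℂ H) +
      finrank ℂ (ker (φ c * φ c + φ c + 1) ⊓ End.eigenspace (φ e) 1 : Submodule ℂ H) : ℕ) := by
  -- conjugation by an involution
  have C1 : ∀ s : End ℂ H, s * s = 1 → s * φ 1 * s = φ 1 := fun s hs => by
    rw [map_one, mul_one, hs]
  have Cm : ∀ s : End ℂ H, s * s = 1 → ∀ {x y x' y'}, s * φ x * s = φ y → s * φ x' * s = φ y' →
      s * φ (x * x') * s = φ (y * y') := fun s hs x y x' y' h1 h2 => by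
    rw [map_mul, map_mul, ← h1, ← h2]
    calc s * (φ x * φ x') * s = s * φ x * 1 * φ x' * s := by simp only [mul_assoc, one_mul]
      _ = s * φ x * s * (s * φ x' * s) := by rw [← hs]; simp only [mul_assoc]
  have Cs : ∀ s : End ℂ H, ∀ {x y x' y'}, s * φ x * s = φ y → s * φ x' * s = φ y' →
      s * φ (x - x') * s = φ (y - y') := fun s x y x' y' h1 h2 => by
    rw [map_sub, map_sub, ← h1, ← h2, mul_sub, sub_mul]
  have Ca : ∀ s : End ℂ H, ∀ {x y x' y'}, s * φ x * s = φ y → s * φ x' * s = φ y' →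
      s * φ (x + x') * s = φ (y + y') := fun s x y x' y' h1 h2 => by
    rw [map_add, map_add, ← h1, ← h2, mul_add, add_mul]
  have Cr : ∀ s : End ℂ H, s * s = 1 → ∀ {x y}, s * φ x * s = φ y → s * φ y * s = φ x :=
    fun s hs x y h1 => by
      rw [← h1]
      calc s * (s * φ x * s) * s = s * s * φ x * (s * s) := by simp only [mul_assoc]
        _ = φ x := by rw [hs, one_mul, mul_one]
  have Cw : ∀ s : End ℂ H, s * s = 1 → s * φ w * s = φ w := fun s hs => by
    rw [hw, mul_smul_comm, mul_one, smul_mul_assoc, hs]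
  have w6 : (w + w + w) + (w + w + w) = 1 := hφ (by
    simp only [map_add, map_one, hw]; module)
  have c3 : c * c * c = 1 := hφ (by rw [map_mul, map_mul, map_one, ← h3, pow_three'])
  have e2 : e * e = 1 := hφ (by rw [map_mul, map_one, he])
  have c3' : c' * c' * c' = 1 := hφ (by
    rw [← Cm h hh (Cm h hh hc hc) hc, c3, C1 h hh])
  have e2' : e' * e' = 1 := hφ (by rw [← Cm h hh hee hee, e2, C1 h hh])
  obtain ⟨p, hp⟩ : ∃ p, p = (w + w) * (1 + c + c * c) := ⟨_, rfl⟩
  obtain ⟨p', hp'⟩ : ∃ p, p = (w + w) * (1 + c' + c' * c') := ⟨_, rfl⟩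
  obtain ⟨r, hr⟩ : ∃ r, r = (w + w + w) * (1 + e) := ⟨_, rfl⟩
  obtain ⟨r', hr'⟩ : ∃ r, r = (w + w + w) * (1 + e') := ⟨_, rfl⟩
  have Q : ∀ (q : End ℂ H) (e : R), (2 : ℂ) • q = 1 + φ e → q = φ ((w + w + w) * (1 + e)) :=
    fun q e hq => by
      rw [map_mul, map_add φ 1, map_one, ← hq, map_add, map_add, hw]
      simp only [add_mul, smul_mul_assoc, one_mul]; module
  have qr : q = φ r := by rw [hr]; exact Q q e hq
  have qr' : q' = φ r' := by rw [hr']; exact Q q' e' hq'
  have P : ∀ c p : R, c * c * c = 1 → p = (w + w) * (1 + c + c * c) →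
      c * p = p ∧ p * p = p ∧ (1 + c + c * c) * (1 - p) = 0 := fun c p c3 hp => by
    have h1 : c * p = p := by rw [hp]; linear_combination (w + w) * c3
    have h2 : (1 + c + c * c) * p = 3 * p := by linear_combination (c + 2) * h1
    refine ⟨h1, ?_, ?_⟩
    · linear_combination p * hp + (w + w) * h2 + p * w6
    · linear_combination (-1) * h2 - 3 * hp - (1 + c + c * c) * w6
  obtain ⟨cp, pp, kp⟩ := P c p c3 hp
  obtain ⟨cp', pp', kp'⟩ := P c' p' c3' hp'
  have rr : r * r = r := by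
    rw [hr]; linear_combination (w + w + w) ^ 2 * e2 + (w + w + w) * (1 + e) * w6
  have rr' : r' * r' = r' := by
    rw [hr']; linear_combination (w + w + w) ^ 2 * e2' + (w + w + w) * (1 + e') * w6
  have CP : ∀ s : End ℂ H, s * s = 1 → ∀ {x y}, s * φ x * s = φ y →
      s * φ ((w + w) * (1 + x + x * x)) * s = φ ((w + w) * (1 + y + y * y)) := fun s hs x y h1 =>
    Cm s hs (Ca s (Cw s hs) (Cw s hs)) (Ca s (Ca s (C1 s hs) h1) (Cm s hs h1 h1))
  have CP2 : ∀ s : End ℂ H, s * s = 1 → ∀ {x}, x * x * x = 1 → s * φ x * s = φ (x * x) →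
      s * φ ((w + w) * (1 + x + x * x)) * s = φ ((w + w) * (1 + x + x * x)) :=
    fun s hs x x3 h1 => by
      rw [CP s hs h1]; exact congrArg φ (by linear_combination (w + w) * x * x3)
  have Hp : h * φ p * h = φ p' := by rw [hp, hp']; exact CP h hh hc
  have Hr : h * φ r * h = φ r' := by
    rw [hr, hr']
    exact Cm h hh (Ca h (Ca h (Cw h hh) (Cw h hh)) (Cw h hh)) (Ca h (C1 h hh) hee)
  -- the involutions
  obtain ⟨υ, hυ⟩ : ∃ υ, υ = h * τ * h := ⟨_, rfl⟩
  rw [← hυ] at tt
  have Cυ : ∀ {x y x' y'}, h * φ x * h = φ x' → h * φ y * h = φ y' → τ * φ x * τ = φ y →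
      υ * φ x' * υ = φ y' := fun {x y x' y'} h1 h2 h3 => by
    rw [hυ, ← h2, ← h3, ← Cr h hh h1]; simp only [mul_assoc]
  have υ2 : υ * υ = 1 := by
    have := Cυ (C1 h hh) (C1 h hh) (C1 τ hτ); rwa [map_one, mul_one] at this
  have τc : τ * φ c * τ = φ (c * c) := by rw [tc, map_mul]
  have τc' : τ * φ c' * τ = φ c' := by rw [tc'.eq, mul_assoc, hτ, mul_one]
  have τp : τ * φ p * τ = φ p := by rw [hp]; exact CP2 τ hτ c3 τc
  have τp' : τ * φ p' * τ = φ p' := by rw [hp']; exact CP τ hτ τc'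
  have υc' : υ * φ c' * υ = φ (c' * c') := Cυ hc (Cm h hh hc hc) τc
  have υp' : υ * φ p' * υ = φ p' := Cυ Hp Hp τp
  have υp : υ * φ p * υ = φ p := Cυ (Cr h hh Hp) (Cr h hh Hp) τp'
  have σ2 : τ * υ * (τ * υ) = 1 := by
    calc τ * υ * (τ * υ) = τ * υ * (υ * τ) := by rw [tt.eq]
      _ = τ * (υ * υ) * τ := by simp only [mul_assoc]
      _ = 1 := by rw [υ2, mul_one, hτ]
  have Cσ : ∀ {x y z}, υ * φ x * υ = φ y → τ * φ y * τ = φ z →
      τ * υ * φ x * (τ * υ) = φ z := fun {x y z} h1 h2 => by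
    rw [← h2, ← h1]
    calc τ * υ * φ x * (τ * υ) = τ * υ * φ x * (υ * τ) := by rw [tt.eq]
      _ = _ := by simp only [mul_assoc]
  have σh : τ * υ * h = h * (τ * υ) := by
    calc τ * υ * h = τ * h * τ * (h * h) := by rw [hυ]; simp only [mul_assoc]
      _ = h * h * τ * h * τ := by rw [hh, mul_one, one_mul]
      _ = h * (υ * τ) := by rw [hυ]; simp only [mul_assoc]
      _ = h * (τ * υ) := by rw [tt.eq]
  -- the functionals
  let t : R →+ ℂ := (trace ℂ H).toAddMonoidHom.comp φ.toAddMonoidHom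
  let u : R →+ ℂ := (trace ℂ H).toAddMonoidHom.comp ((AddMonoidHom.mulLeft h).comp φ.toAddMonoidHom)
  have ht : ∀ x, t x = trace ℂ H (φ x) := fun _ => rfl
  have hu : ∀ x, u x = trace ℂ H (h * φ x) := fun _ => rfl
  have tC : ∀ s : End ℂ H, s * s = 1 → ∀ {x y}, s * φ x * s = φ y → t x = t y :=
    fun s hs x y h1 => by rw [ht, ht, ← h1, tr_conj _ _ hs]
  have uσ : ∀ {x y}, τ * υ * φ x * (τ * υ) = φ y → u x = u y := fun {x y} h1 => by
    rw [hu, hu, ← h1, ← tr_conj (τ * υ) (h * φ x) σ2, ← mul_assoc (τ * υ), σh]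
    simp only [mul_assoc]
  have uh : ∀ {x y} z, h * φ x * h = φ y → u (x * z) = u (y * z) := fun {x y} z h1 => by
    rw [hu, hu, mul_comm x z, map_mul φ, map_mul φ, ← h1, ← mul_assoc, trace_mul_comm]
    refine congrArg (trace ℂ H) ?_
    calc φ x * (h * φ z) = h * h * φ x * (h * φ z) := by rw [hh, one_mul]
      _ = _ := by simp only [mul_assoc]
  have σc' : τ * υ * φ c' * (τ * υ) = φ (c' * c') := Cσ υc' (Cm τ hτ τc' τc')
  have E := exact t u c c' p p' cp cp' pp pp' kp kp'
    (tC τ hτ (Cm τ hτ τc (Cm τ hτ (Cs τ (C1 τ hτ) τp) τp')))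
    (tC υ υ2 (Cm υ υ2 υc' (Cm υ υ2 (Cs υ (C1 υ υ2) υp') υp)))
    (tC τ hτ (Cm τ hτ τc (Cm τ hτ (Cs τ (C1 τ hτ) τp) (Cm τ hτ τc' (Cs τ (C1 τ hτ) τp')))))
    (tC υ υ2 (Cm υ υ2 υc' (Cm υ υ2 (Cs υ (C1 υ υ2) υp') (Cs υ (C1 υ υ2) υp))))
    (tC h hh (Cm h hh (Cs h (C1 h hh) Hp) (Cr h hh Hp)))
    (by rw [mul_one]; exact uh c' hc) (uσ (Cm _ σ2 σc' (C1 _ σ2)))
    (uh _ (Cm h hh Hp (Cs h (C1 h hh) (Cr h hh Hp))))
    (uh _ (Cm h hh (Cs h (C1 h hh) Hp) (Cr h hh Hp)))
    (uσ (Cm _ σ2 σc' (Cm _ σ2 (Cs _ (C1 _ σ2) (Cσ υp' τp')) (Cs _ (C1 _ σ2) (Cσ υp τp)))))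
  have F := core (Complex.reAddGroupHom.comp t) (Complex.reAddGroupHom.comp u)
    (fun x y => h * φ x * h = φ y) p p' r r' pp pp' rr rr'
    (fun x hx => tr_nonneg (φ x) (by rw [← map_mul, hx]))
    (fun x hx h1 => tr_h h (φ x) hh (by rw [← map_mul, hx]) (by
      calc h * φ x = h * φ x * (h * h) := by rw [hh, mul_one]
        _ = h * φ x * h * h := by simp only [mul_assoc]
        _ = φ x * h := by rw [h1]))
    (C1 h hh) (Cm h hh) (Cs h) (Cr h hh) (fun h1 => congrArg Complex.re (tC h hh h1)) Hp Hr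
  -- the two ranks
  have act : ∀ {x y : R} {v : H}, φ (x * y) v = φ x (φ y v) := fun {x y v} => by
    rw [map_mul]; rfl
  have R1 : range (φ (p * (1 - r))) = End.eigenspace (φ c) 1 ⊓ End.eigenspace (φ e) (-1) := by
    ext v
    simp only [mem_range, Submodule.mem_inf, End.mem_eigenspace_iff, one_smul, neg_smul]
    constructor
    · rintro ⟨y, rfl⟩
      refine ⟨by rw [← act, ← mul_assoc, cp], ?_⟩
      rw [← act, ← LinearMap.neg_apply, ← map_neg]
      refine congrArg (fun x => φ x y) ?_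
      rw [hr]; linear_combination (-(p * (w + w + w))) * e2 - p * (1 + e) * w6
    · rintro ⟨h1, h2⟩
      refine ⟨v, ?_⟩
      have h4 : φ (1 - r) v = v := by
        rw [hr, map_sub, map_one, LinearMap.sub_apply, act, map_add φ 1, map_one, LinearMap.add_apply, h2]; simp
      rw [act, h4, hp]
      simp only [act, map_add, map_one, LinearMap.add_apply, h1, hw, LinearMap.smul_apply,
        End.one_apply]
      module
  have R2 : range (φ (r * (1 - p))) = ker (φ c * φ c + φ c + 1) ⊓ End.eigenspace (φ e) 1 := by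
    have hk : φ c * φ c + φ c + 1 = φ (1 + c + c * c) := by
      rw [map_add, map_add, map_mul, map_one]; abel
    ext v
    simp only [mem_range, Submodule.mem_inf, End.mem_eigenspace_iff, one_smul, mem_ker, hk]
    constructor
    · rintro ⟨y, rfl⟩
      constructor
      · rw [← act, show (1 + c + c * c) * (r * (1 - p)) = 0 by linear_combination r * kp, map_zero,
          LinearMap.zero_apply]
      · rw [← act]
        refine congrArg (fun x => φ x y) ?_
        rw [hr]; linear_combination ((1 - p) * (w + w + w)) * e2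
    · rintro ⟨h1, h2⟩
      refine ⟨v, ?_⟩
      have h4 : φ (1 - p) v = v := by
        rw [hp, map_sub, map_one, LinearMap.sub_apply, act, h1]; simp
      rw [act, h4, hr]
      simp only [act, map_add, map_one, LinearMap.add_apply, h2, hw, LinearMap.smul_apply,
        End.one_apply]
      module
  have im : ∀ x y : R, x * x = x → y * y = y → φ (x * (1 - y)) * φ (x * (1 - y)) =
      φ (x * (1 - y)) := fun x y hx hy => by
    rw [← map_mul]; exact congrArg φ (by linear_combination (1 - y) ^ 2 * hx + x * hy)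
  have r1 := tr_idem _ (im p r pp rr)
  have r2 := tr_idem _ (im r p rr pp)
  rw [R1] at r1
  rw [R2] at r2
  have one : ∀ x : R, 1 - φ x = φ (1 - x) := fun x => by rw [map_sub, map_one]
  simp only [AddMonoidHom.comp_apply, Complex.coe_reAddGroupHom] at F
  rw [ht (p * (1 - r)), ht (r * (1 - p)), r1, r2] at F
  rw [qr, qr', one, one, ← map_mul, ← map_mul, ← map_mul, ← map_mul, ← ht, ← ht, ← ht, ← ht,
    ← hu, ← hu, ← hu, E]
  simp only [Complex.add_re, Complex.sub_re, Complex.div_ofNat_re, Complex.natCast_re] at F ⊢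
  push_cast
  linarith

end

open scoped IsMulCommutative in
theorem slin : SLin := by
  intro H _ _ _ c c' e e' h τ q q' h3 he hh hτ hc hee cc ce ce' ee tc tc' tt hq hq'
  have cj : ∀ x y : End ℂ H, h * x * h * (h * y * h) = h * (x * y) * h := fun x y => by
    calc h * x * h * (h * y * h) = h * x * (h * h) * y * h := by simp only [mul_assoc]
      _ = _ := by rw [hh]; simp only [mul_one, mul_assoc]
  have hee' : h * e' * h = e := by
    rw [← hee]
    calc h * (h * e * h) * h = h * h * e * (h * h) := by simp only [mul_assoc]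
      _ = e := by rw [hh, one_mul, mul_one]
  have c'e' : c' * e' = e' * c' := by rw [← hc, ← hee, cj, cj, ce.eq]
  have c'e : c' * e = e * c' := by rw [← hc, ← hee', cj, cj, ce'.eq]
  have : IsMulCommutative (Algebra.adjoin ℂ ({c, c', e, e'} : Set (End ℂ H))) :=
    Algebra.isMulCommutative_adjoin ℂ (by
      intro x hx y hy
      simp only [Set.mem_insert_iff, Set.mem_singleton_iff] at hx hy
      rcases hx with rfl | rfl | rfl | rfl <;> rcases hy with rfl | rfl | rfl | rfl <;>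
        first
        | rfl | exact cc.eq | exact cc.eq.symm | exact ce.eq | exact ce.eq.symm | exact ce'.eq
        | exact ce'.eq.symm | exact ee.eq | exact ee.eq.symm | exact c'e' | exact c'e'.symm
        | exact c'e | exact c'e.symm)
  exact main (R := Algebra.adjoin ℂ ({c, c', e, e'} : Set (End ℂ H)))
    (Algebra.adjoin ℂ ({c, c', e, e'} : Set (End ℂ H))).toSubring.subtype Subtype.val_injective
    ⟨(1 / 6 : ℂ) • 1, Subalgebra.smul_mem _ (one_mem _) _⟩
    ⟨c, Algebra.subset_adjoin (by simp)⟩ ⟨c', Algebra.subset_adjoin (by simp)⟩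
    ⟨e, Algebra.subset_adjoin (by simp)⟩ ⟨e', Algebra.subset_adjoin (by simp)⟩ h τ q q' rfl
    h3 he hh hτ hc hee tc tc' tt hq hq'

end Pool.Agent.MP_3ce0a0_al.H55
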